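import Pool.Agent.R838.QGr
import Pool.Agent.W558.WT.Asm3
import Pool.Agent.W558.Var
import Pool.Agent.W418.Z.Reg

/-!
MP_4d1008_ag: regular models, proper over `ℤ`, of the quotients of products of surfaces over finite
fields of characteristic `p` by finite diagonalizable group schemes `D`, if the order of the image
of `D` in the automorphism group scheme of each factor is not divisible by `p ^ 2`; for example of
all schemes birational to a quotient `(X_1 × ... × X_n) / μ_N` by the diagonal action of `μ_N`,
`N = p * m`, `m` prime to `p`. All even dimensions. In terms of algebras: `D = Spec k[Λ]` for a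
finite abelian group `Λ`, the coordinate rings `A_i` of the `X_i` are `Λ`-graded, and the
coordinate ring of the quotient is the part of degree zero of the tensor product of the `A_i`.

The proof combines the construction of a log smooth model of the function field of the quotient
(the proof of MP_b525bf_ag.DiagonalizableQuotients of the starting files, helper214, helper188 and
the library of helper558's team) with the gluing of its charts to a regular scheme proper over `ℤ`
(helper418).
-/

set_option autoImplicit false

open AlgebraicGeometry CategoryTheory Pool.Agent.W558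

namespace Pool.Agent.Results.MP_4d1008_ag.DiagonalizableQuotients

/-- The algebra `B` with the homomorphisms `j i : A i → B` is the tensor product over `k` of the
algebras `A i`: homomorphisms `f i` from the `A i` to a commutative `k`-algebra `S` correspond to
homomorphisms `g` from `B` to `S`. So `Spec B` is the product of the `Spec (A i)` over `k`. -/
def IsTensorProduct {k : Type} [Field k] {n : ℕ} {A : Fin n → Type} [∀ i, CommRing (A i)]
    [∀ i, Algebra k (A i)] {B : Type} [CommRing B] [Algebra k B] (j : ∀ i, A i →ₐ[k] B) :
    Prop :=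
  ∀ (S : Type) [CommRing S] [Algebra k S] (f : ∀ i, A i →ₐ[k] S),
    ∃! g : B →ₐ[k] S, ∀ i a, g (j i a) = f i a

/-- The coordinate ring `k[H_0 / H_j, ..., H_N / H_j]` of the chart `H_j ≠ 0` of the projective
variety over `k` with the homogeneous coordinates `H_0, ..., H_N` in a field `K`. -/
def chart (k : Type) {K : Type} [Field k] [Field K] [Algebra k K] {N : ℕ}
    (H : Fin (N + 1) → K) (j : Fin (N + 1)) : Subalgebra k K :=
  Algebra.adjoin k (Set.range fun l => H l / H j)

section graded

variable {k A : Type} [Field k] [CommRing A] [Algebra k A] {Λ : Type} [AddCommGroup Λ]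
  [DecidableEq Λ]

/-- The subgroup of `Λ` generated by the degrees of the nonzero homogeneous elements of a
`Λ`-graded algebra, the character group of the image of the group scheme `Spec k[Λ]` in the
automorphism group scheme of the algebra. -/
def degreeGroup (𝒜 : Λ → Submodule k A) : AddSubgroup Λ :=
  AddSubgroup.closure {x | ∃ a ∈ 𝒜 x, a ≠ 0}

/-- The part of degree zero of a graded algebra, the algebra of invariants of the group scheme
`Spec k[Λ]`. -/
def degreeZero (𝒜 : Λ → Submodule k A) [GradedAlgebra 𝒜] : Subalgebra k A where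
  carrier := 𝒜 0
  mul_mem' := fun ha hb => by
    have h := SetLike.mul_mem_graded ha hb
    rwa [add_zero] at h
  add_mem' := fun ha hb => Submodule.add_mem _ ha hb
  algebraMap_mem' := fun c => by
    rw [Algebra.algebraMap_eq_smul_one]
    exact Submodule.smul_mem _ _ (SetLike.one_mem_graded 𝒜)

/-- The quotient of the affine variety `Spec A` by the group scheme `Spec k[Λ]`, that is, the
spectrum of the part of degree zero, is birational to a smooth projective variety. Here `K` is the
fraction field of `A`, the projective variety is given by homogeneous coordinates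
`H_0, ..., H_N` in `K`: its charts are smooth over `k`, and its function field, the field of
quotients of elements of a chart, consists of the quotients of elements of `A` of degree zero. For
surfaces over finite fields this condition is always satisfied by the resolution of
singularities of surfaces. -/
def HasSmoothProjectiveQuotient (K : Type) [Field K] [Algebra k K] [Algebra A K]
    (𝒜 : Λ → Submodule k A) : Prop :=
  ∃ (N : ℕ) (H : Fin (N + 1) → K), (∀ l, H l ≠ 0) ∧
    (∀ j, Algebra.Smooth k (chart k H j)) ∧
    ∀ j (y : K), (∃ a ∈ 𝒜 0, ∃ b ∈ 𝒜 0, b ≠ 0 ∧ y = algebraMap A K a / algebraMap A K b) ↔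
      ∃ u ∈ chart k H j, ∃ v ∈ chart k H j, v ≠ 0 ∧ y = u / v

end graded

/-- Let `p` be a prime, `k` a finite field of characteristic `p`, `Λ` a finite abelian group and
`D = Spec k[Λ]` the corresponding diagonalizable group scheme. Let `Spec (A i)`, `i < n`, be
affine surfaces over `k` with an action of `D`: the `A i` are `Λ`-graded domains of finite type and
of dimension 2 over `k`. Suppose that the order of the subgroup of `Λ` generated by the degrees
of the homogeneous elements of `A i` is not divisible by `p ^ 2`, and that the quotient of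
`Spec (A i)` by `D` is birational to a smooth projective surface (this is always the case). Let
`Spec B` be the product of the surfaces over `k`, assumed to be integral, with the diagonal action
of `D`: the grading `ℬ` of `B` such that the homomorphisms `A i → B` preserve the degrees. Then
every integral scheme `Y` of finite type over `ℤ` which is birational to the quotient of `Spec B`
by `D` has a regular model which is proper over `ℤ`. -/
theorem result (p : ℕ) [Fact p.Prime] (k : Type) [Field k] [Finite k] [CharP k p]
    (Λ : Type) [AddCommGroup Λ] [Finite Λ] [DecidableEq Λ] (n : ℕ)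
    (A K : Fin n → Type) [∀ i, CommRing (A i)] [∀ i, IsDomain (A i)] [∀ i, Algebra k (A i)]
    [∀ i, Algebra.FiniteType k (A i)] (hA : ∀ i, Algebra.trdeg k (A i) = 2) [∀ i, Field (K i)]
    [∀ i, Algebra k (K i)] [∀ i, Algebra (A i) (K i)] [∀ i, IsScalarTower k (A i) (K i)]
    [∀ i, IsFractionRing (A i) (K i)] (𝒜 : ∀ i, Λ → Submodule k (A i))
    [∀ i, GradedAlgebra (𝒜 i)] (h𝒜 : ∀ i, ¬ p ^ 2 ∣ Nat.card (degreeGroup (𝒜 i)))
    (hq : ∀ i, HasSmoothProjectiveQuotient (K i) (𝒜 i))
    (B : Type) [CommRing B] [IsDomain B] [Algebra k B] (j : ∀ i, A i →ₐ[k] B)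
    (hj : IsTensorProduct j) (ℬ : Λ → Submodule k B) [GradedAlgebra ℬ]
    (hℬ : ∀ i x, ∀ a ∈ 𝒜 i x, j i a ∈ ℬ x)
    (Y : Scheme.{0}) (_ : IsIntegral Y) (g : Y ⟶ Spec (CommRingCat.of ℤ))
    (_ : LocallyOfFiniteType g) (_ : QuasiCompact g)
    (_ : Nonempty (Y.functionField ≃+* FractionRing (degreeZero ℬ))) :
    ∃ (X' : Scheme.{0}) (_ : IsIntegral X') (g' : X' ⟶ Spec (CommRingCat.of ℤ)),
      IsProper g' ∧
      (∀ x : X',
        (((Module.finrank (IsLocalRing.ResidueField (X'.presheaf.stalk x))
            (IsLocalRing.CotangentSpace (X'.presheaf.stalk x)) : ℕ∞)) : WithBot ℕ∞)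
          = ringKrullDim (X'.presheaf.stalk x)) ∧
      Nonempty (X'.functionField ≃+* Y.functionField) := by
  have hj' : Pool.Agent.W558.WT.IsTP j := by
    refine ⟨fun S _ _ f => (hj S f).exists, fun S _ _ g g' h => ?_⟩
    exact (hj S fun i => g.comp (j i)).unique (fun i a => rfl) fun i a => (h i a).symm
  have hcl : ∀ i, Pool.Agent.TH214.Q.suppG (𝒜 i) = degreeGroup (𝒜 i) := by
    intro i
    apply le_antisymm
    · intro x hx
      exact AddSubgroup.subset_closure hx
    · unfold degreeGroup
      rw [AddSubgroup.closure_le]
      intro x hx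
      exact hx
  have hm' : ∀ i, Algebra.trdeg k (Pool.Agent.TH214.Q.F0 (𝒜 i) (K i)) = 2 ∧
      Pool.Agent.W558.HasModel k (Pool.Agent.TH214.Q.F0 (𝒜 i) (K i)) := by
    intro i
    obtain ⟨N, H, h1, h2, h3⟩ := hq i
    exact Pool.Agent.TH214.Q.modGr (𝒜 i) (K i) (hA i) N H h1 h2 h3
  obtain ⟨KG, _, _, _, _, _, T, I, hT, hI, M, hR⟩ := Pool.Agent.R838.QGr.quotGr_LM
    Pool.Agent.W558.wt_art p k n A K B j hj' 𝒜 ℬ hℬ
    (fun i => by rw [hcl i]; exact h𝒜 i) (fun i => (hm' i).1) (fun i => (hm' i).2)
    (degreeZero ℬ) (fun b => Iff.rfl)
  obtain ⟨X', hX', g', h1, h2, ⟨h3⟩⟩ := Pool.Agent.W418.Z.regular_of_LM M (fun t x => by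
    obtain ⟨a, ha, b, hb, hb0, h⟩ := hR t x
    exact ⟨a, ha, b, hb, hb0, by rw [h, div_eq_mul_inv]⟩)
  obtain ⟨ε⟩ := ‹Nonempty (Y.functionField ≃+* FractionRing (degreeZero ℬ))›
  let δ : FractionRing (degreeZero ℬ) ≃+* KG :=
    (IsLocalization.algEquiv (nonZeroDivisors (degreeZero ℬ)) (FractionRing (degreeZero ℬ))
      KG).toRingEquiv
  exact ⟨X', hX', g', h1, h2, ⟨h3.trans (ε.trans δ).symm⟩⟩

end Pool.Agent.Results.MP_4d1008_ag.DiagonalizableQuotients
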