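import Pool.Agent.TH188.VQ.Fin
import Pool.Agent.W418.Z.Reg

/-!
MP_4d1008_ag: regular models, proper over `ℤ`, of the quotients of products of surfaces over finite
fields of characteristic `p` by vector fields. Let `D i` be a rational vector field on the surface
`X i` with `(D i) ^ p = 0` for all `i`, or `(D i) ^ p = (μ i) ^ (p - 1) * D i`, `μ i ≠ 0` in `k`, for
all `i`. Then every integral scheme of finite type over `ℤ` which is birational to the quotient of
the product of the `X i` by any set of linear combinations `∑ i, v i * D i` with coefficients in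
`k` has a regular model which is proper over `ℤ`. All even dimensions.

The proof combines the construction of a log smooth model of the field of common constants (the
proof of MP_19ffc6_ag.SurfaceVectorFieldQuotients of the starting files, helper188 and the library
of helper558's team) with the gluing of its charts to a regular scheme proper over `ℤ` (helper418).
-/

set_option autoImplicit false

open AlgebraicGeometry CategoryTheory Pool.Agent.W558 TensorProduct

namespace Pool.Agent.Results.MP_4d1008_ag.VectorFieldQuotients

/-- The field `E` is the function field of a smooth projective variety over `k`, given by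
homogeneous coordinates `H 0, ..., H N` in `E`: the coordinate rings `k[H 0 / H i, ..., H N / H i]`
of the charts are smooth over `k` and have the fraction field `E`. For function fields of surfaces
over finite fields this condition is always satisfied, by the resolution of singularities of
surfaces. -/
def HasSmoothProjectiveModel (k E : Type) [Field k] [Field E] [Algebra k E] : Prop :=
  ∃ (N : ℕ) (H : Fin (N + 1) → E), (∀ i, H i ≠ 0) ∧ ∀ i,
    Algebra.Smooth k (Algebra.adjoin k (Set.range fun j => H j / H i)) ∧
    IsFractionRing (Algebra.adjoin k (Set.range fun j => H j / H i)) E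

section

variable {k K : Type} [Field k] [Field K] [Algebra k K] {n : ℕ}
  (E : Fin n → IntermediateField k K) (D : Fin n → Derivation k K K)

/-- The subfields `E 1, ..., E n` of `K` are linearly disjoint over `k`: the homomorphism from their
tensor product over `k` to `K`, which maps `x 1 ⊗ ... ⊗ x n` to `x 1 * ... * x n`, is
injective. -/
def LinearlyDisjoint : Prop :=
  Function.Injective (PiTensorProduct.lift ((MultilinearMap.mkPiAlgebra k (Fin n) K).compLinearMap
    fun i => (E i).val.toLinearMap))

/-- The field `K` is the function field of the product of `n` surfaces over `k` with the function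
fields `E 1, ..., E n`: it is generated by these linearly disjoint subfields, each of which is
the function field of a smooth projective surface over `k` or a field of rational functions in two
variables over `k`. -/
structure IsProductOfSurfaces : Prop where
  surface : ∀ i, (Algebra.trdeg k (E i) = 2 ∧ HasSmoothProjectiveModel k (E i)) ∨
    Nonempty (E i ≃ₐ[k] FractionRing (MvPolynomial (Fin 2) k))
  disjoint : LinearlyDisjoint E
  generate : IntermediateField.adjoin k (⋃ i, (E i : Set K)) = ⊤

/-- `D i` is a rational vector field on the factor `i`: the derivation `D i` of `K` maps `E i` to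
`E i` and vanishes on the `E l`, `l ≠ i`. Either `(D i) ^ p = 0` on `E i` for all `i`, or there are
elements `μ i ≠ 0` of `k` such that `(D i) ^ p = μ i ^ (p - 1) * D i` on `E i` for all `i`. -/
structure AreFieldsOnFactors (p : ℕ) : Prop where
  maps : ∀ i, ∀ x ∈ E i, D i x ∈ E i
  vanish : ∀ i l, i ≠ l → ∀ x ∈ E l, D i x = 0
  power : (∀ i, ∀ x ∈ E i, (D i)^[p] x = 0) ∨
    ∃ μ : Fin n → k, (∀ i, μ i ≠ 0) ∧ ∀ i, ∀ x ∈ E i, (D i)^[p] x = μ i ^ (p - 1) • D i x

end

/-- Let `k` be a finite field of characteristic `p`, and let `K` be the function field of the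
product of `n` surfaces over `k`. Let `D i` be a rational vector field on the factor `i`, such that
`(D i) ^ p = 0` for all `i`, or `(D i) ^ p = μ i ^ (p - 1) * D i` for all `i`, where the `μ i ≠ 0`
are elements of `k`. Let `V` be a set of vectors in `k ^ n`, and let `F` be the function field of
the quotient of the product by the vector fields `∑ i, v i * D i`, `v ∈ V`: the field of common
constants of these derivations of `K`. Then every integral scheme `Y` of finite type over `ℤ` whose
function field is isomorphic to `F` has a regular model which is proper over `ℤ`. -/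
theorem result (p : ℕ) [Fact p.Prime] (k : Type) [Field k] [Finite k] [CharP k p] (n : ℕ)
    (K : Type) [Field K] [Algebra k K] (E : Fin n → IntermediateField k K)
    (D : Fin n → Derivation k K K) (hE : IsProductOfSurfaces E) (hD : AreFieldsOnFactors E D p)
    (V : Set (Fin n → k)) (F : IntermediateField k K)
    (hF : ∀ x, x ∈ F ↔ ∀ v ∈ V, ∑ i, v i • D i x = 0)
    (Y : Scheme.{0}) (_ : IsIntegral Y) (g : Y ⟶ Spec (CommRingCat.of ℤ))
    (_ : LocallyOfFiniteType g) (_ : QuasiCompact g)
    (_ : Nonempty (Y.functionField ≃+* F)) :
    ∃ (X' : Scheme.{0}) (_ : IsIntegral X') (g' : X' ⟶ Spec (CommRingCat.of ℤ)),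
      IsProper g' ∧
      (∀ x : X',
        (((Module.finrank (IsLocalRing.ResidueField (X'.presheaf.stalk x))
            (IsLocalRing.CotangentSpace (X'.presheaf.stalk x)) : ℕ∞)) : WithBot ℕ∞)
          = ringKrullDim (X'.presheaf.stalk x)) ∧
      Nonempty (X'.functionField ≃+* Y.functionField) := by
  have hmod : ∀ (E : Type) [Field E] [Algebra k E], HasSmoothProjectiveModel k E →
      HasModel k E := by
    rintro E _ _ ⟨N, H, h0, h1⟩
    refine ⟨N, H, h0, fun i => ⟨(h1 i).1, fun x => ?_⟩⟩
    have h2 := (h1 i).2
    obtain ⟨a, b, hb, rfl⟩ := IsFractionRing.div_surjective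
      (A := Algebra.adjoin k (Set.range fun j => H j / H i)) x
    exact ⟨a, a.2, b, b.2, fun h => nonZeroDivisors.ne_zero hb (Subtype.ext h),
      div_eq_mul_inv _ _⟩
  have h2 : ∀ i, Algebra.trdeg k (E i) = 2 := by
    intro i
    rcases hE.surface i with h | ⟨⟨ε⟩⟩
    · exact h.1
    · exact ε.trdeg_eq.trans (Pool.Agent.W558.trdeg_RF2 k)
  have hM : ∀ i, HasModel k (E i) := by
    intro i
    rcases hE.surface i with h | ⟨⟨ε⟩⟩
    · exact hmod _ h.2
    · exact Pool.Agent.TH188.WP.hasModel_of_equiv ε.symm (Pool.Agent.W558.hasModel_RF2 k)
  obtain ⟨T, I, hT, hI, M, -, -, hR⟩ := Pool.Agent.TH188.VQ.exists_model_fld p E D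
    Pool.Agent.TH188.VQ.mulHomInj h2 hM hE.disjoint hE.generate hD.maps hD.vanish hD.power V F hF
    PEmpty (fun b => b.elim) (fun b => b.elim) (fun b => b.elim)
  obtain ⟨X', hX', g', h1, h2, ⟨h3⟩⟩ := Pool.Agent.W418.Z.regular_of_LM M (fun t x => by
    obtain ⟨a, ha, b, hb, hb0, h⟩ := hR t x
    exact ⟨a, ha, b, hb, hb0, by rw [h, div_eq_mul_inv]⟩)
  obtain ⟨ε⟩ := ‹Nonempty (Y.functionField ≃+* F)›
  exact ⟨X', hX', g', h1, h2, ⟨h3.trans ε.symm⟩⟩

end Pool.Agent.Results.MP_4d1008_ag.VectorFieldQuotients
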